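import Pool.Agent.KT3.StmtsM

/-!
# KT3 squad, row ANM: moves of the second pair stay in the class
-/

set_option autoImplicit false

open Matrix Filter Topology

namespace Pool.Agent.KT3.H27

open Pool.Agent.PFS Pool.Agent.PFJ Pool.Agent.NBT

private theorem mem_bi {n K : ℕ} {C : Set (V n)} (hP : PCone C) {u : Fin K → V n}
    (hu : ∀ i, u i ∈ closure C) {I : Finset (Fin K)} {v : V n} (hv : v ∈ closure C) {M : ℝ}
    (h : M • fS u I - v ∈ closure C) : v ∈ BI C u I :=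
  (fcs n C hP (fS u I) (fS_cl hP hu I)).2.1 v hv M h

private theorem up0 {n : ℕ} (w : Fin 3 → V n) (y : V n) : up w y 0 = y :=
  Function.update_self 0 y w

private theorem up1 {n : ℕ} (w : Fin 3 → V n) (y : V n) : up w y 1 = w 1 :=
  Function.update_of_ne (a := (1 : Fin 3)) (a' := 0) (by decide) y w

private theorem up2 {n : ℕ} (w : Fin 3 → V n) (y : V n) : up w y 2 = w 2 :=
  Function.update_of_ne (a := (2 : Fin 3)) (a' := 0) (by decide) y w

/-- the normalised case -/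
private theorem core (hWIP : WipStmt) (hWIF : WifStmt) (hPHU : PhuStmt) (hLFI : LfiStmt)
    (hLFM : LfmStmt) (hLFD : LfdStmt) (hANY : AnyStmt) (hANS : AnsStmt)
    {n : ℕ} {C : Set (V n)} {Γ : Subgroup (GL (Fin n) ℝ)} {d q : ℕ} (h : H3 C Γ d)
    {w : Fin 3 → V n} {N : Submodule ℝ (V n)} (hw : AN C Γ d q w N) {φ : V n →ₗ[ℝ] ℝ}
    (hφ : Ph C w 0 φ) {x : V n} (hx : Lf C w x) (hx1 : φ x = 1) {p : V n →ₗ[ℝ] V n}
    (hp : PJ C N x (w 2) p) {y : V n} (hpy : p y = y) (hyc : y ∈ closure C)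
    (hyu : ¬ Unt C (LinearMap.range p) y) (hy1 : φ y = 1) :
    AN C Γ d q (up w y) N ∧ ∀ pr : V n →ₗ[ℝ] V n, PrI C w I01 pr → pr y = x := by
  have hP : PCone C := h.toPCone
  have hANS' : ∀ pr : V n →ₗ[ℝ] V n, PrI C w I01 pr → ∀ x' : V n, ∀ p' : V n →ₗ[ℝ] V n,
      Lf C w x' → φ x' = 1 → PJ C N x' (w 2) p' →
      p' y ∈ closure C ∧ φ (p' y) = 1 ∧ pr (p' y) = x' ∧ p' y ∈ BI C (up w y) I01 := by
    intro pr hpr x' p' hx' hx'1 hp'
    exact hANS n C Γ d q h w N hw φ hφ pr hpr x x' y p p' hx hx' hx1 hx'1 hp hp' hpy hyc hyu hy1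
  have hlast : ∀ pr : V n →ₗ[ℝ] V n, PrI C w I01 pr → pr y = x := by
    intro pr hpr
    have h1 := (hANS' pr hpr x p hx hx1 hp).2.2.1
    rwa [hpy] at h1
  refine ⟨?_, hlast⟩
  obtain ⟨pr, hpr⟩ := hWIP n C Γ 3 I01 d h.toHI w hw.wl
  obtain ⟨hf1, -, -, -, -, -, hf7, -⟩ := hWIF n C Γ 3 I01 d h.toHI w hw.wl pr hpr
  have hpr2 : pr (w 2) = 0 := hf1 2 (by decide)
  have hw1F : w 1 ∈ BI C w I01 := hw.wl.box.mem 1 (by decide)
  have hw0F : w 0 ∈ BI C w I01 := hw.wl.box.mem 0 (by decide)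
  have hpr1 : pr (w 1) = w 1 := hpr.idB _ hw1F
  have hpr0 : pr (w 0) = w 0 := hpr.idB _ hw0F
  have hwcl : ∀ i, w i ∈ closure C := fun i => hw.wl.pes.1.cl i
  have hcomp : (I01ᶜ : Finset (Fin 3)) = {2} := by decide
  -- the new triangle
  obtain ⟨hpes, -, -⟩ := hANY n C Γ d q h w N hw φ hφ x hx p hp y hpy hyc hyu
    (by rw [hy1]; exact one_pos)
  have hucl : ∀ i, up w y i ∈ closure C := fun i => hpes.1.cl i
  have hfS : fS (up w y) I01 = y + w 1 := by
    rw [fS_pair _ (by decide), up0, up1]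
  have hw1s : w 1 ∈ BI C (up w y) I01 := by
    refine mem_bi hP hucl (hwcl 1) (M := 1) ?_
    rw [hfS, one_smul, add_sub_cancel_right]
    exact hyc
  have hys : y ∈ BI C (up w y) I01 := by
    refine mem_bi hP hucl hyc (M := 1) ?_
    rw [hfS, one_smul, add_sub_cancel_left]
    exact hwcl 1
  -- the functional of the new triangle
  have hφ1 : φ (w 1) = 0 := hφ.zero 1 (by decide)
  have hφ2 : φ (w 2) = 0 := hφ.zero 2 (by decide)
  have hφu : Ph C (up w y) 0 φ := by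
    refine ⟨hφ.pos, ?_, ?_⟩
    · rw [up0]; exact hy1
    · intro j hj
      have h1 : up w y j = w j := Function.update_of_ne hj y w
      rw [h1]
      exact hφ.zero j hj
  have hφpr : ∀ v, φ (pr v) = φ v := by
    intro v
    have h1 := (hPHU n C Γ 3 h.toHK w hw.wl.pes 0 φ hφ).1 (φ.comp pr)
      (fun v hv => hφ.pos _ (hpr.pos v hv)) (by
        intro j hj
        have hj' : j = 1 ∨ j = 2 := by
          fin_cases j
          · exact absurd rfl hj
          · left; rfl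
          · right; rfl
        rcases hj' with rfl | rfl
        · show φ (pr (w 1)) = 0
          rw [hpr1]; exact hφ1
        · show φ (pr (w 2)) = 0
          rw [hpr2, map_zero]) v
    have h2 : φ (pr v) = φ (pr (w 0)) * φ v := h1
    rw [h2, hpr0, hφ.one, one_mul]
  -- normalisation of leaf points
  have hnorm : ∀ v : V n, Lf C w v → 0 < φ v → Lf C w ((φ v)⁻¹ • v) ∧ φ ((φ v)⁻¹ • v) = 1 := by
    intro v hv hv0
    refine ⟨((hLFI n C Γ d h w hw.wl v).2.2 (φ v)⁻¹ (inv_pos.2 hv0)).2 hv, ?_⟩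
    rw [map_smul, smul_eq_mul, inv_mul_cancel₀ hv0.ne']
  -- every vector of the cone of `F` is the image of a vector of the cone of `F*`
  have K1 : ∀ u ∈ BI C w I01, u ∈ closure C →
      ∃ u' ∈ BI C (up w y) I01, u' ∈ closure C ∧ pr u' = u := by
    intro u hu huc
    obtain ⟨hd1, hd2⟩ := hLFD n C Γ d h w hw.wl φ hφ u hu huc
    rcases (hφ.pos u huc).lt_or_eq with hpos | hzero
    · obtain ⟨x', s, hs, hx', hux, hφx⟩ := hd1 hpos
      have hx'0 : 0 < φ x' := by rw [hφx]; exact hpos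
      obtain ⟨hn1, hn2⟩ := hnorm x' hx' hx'0
      obtain ⟨p', hp'⟩ := hw.prj _ hn1
      obtain ⟨ha1, -, ha3, ha4⟩ := hANS' pr hpr _ p' hn1 hn2 hp'
      refine ⟨φ x' • p' y + s • w 1, Submodule.add_mem _ (Submodule.smul_mem _ _ ha4)
        (Submodule.smul_mem _ _ hw1s), hP.cl_add (hP.cl_smul ha1 hx'0.le)
        (hP.cl_smul (hwcl 1) hs), ?_⟩
      rw [map_add, map_smul, map_smul, ha3, hpr1, smul_smul, mul_inv_cancel₀ hx'0.ne', one_smul,
        hux]
    · obtain ⟨c, hc, huc'⟩ := hd2 hzero.symm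
      refine ⟨c • w 1, Submodule.smul_mem _ _ hw1s, hP.cl_smul (hwcl 1) hc, ?_⟩
      rw [map_smul, hpr1, huc']
  -- `pr` maps `F*` onto `F`
  have K2 : BI C w I01 ≤ Submodule.map pr (BI C (up w y) I01) := by
    intro u hu
    obtain ⟨M, hM, hM1, hM2⟩ := unt_two hP hf7 hu
    have hfF : fS w I01 ∈ BI C w I01 := hf7.1
    obtain ⟨a, ha, -, hpa⟩ := K1 (M • fS w I01 + u)
      (Submodule.add_mem _ (Submodule.smul_mem _ _ hfF) hu) hM2
    obtain ⟨b, hb, -, hpb⟩ := K1 (M • fS w I01) (Submodule.smul_mem _ _ hfF)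
      (hP.cl_smul hf7.2.1 hM.le)
    refine ⟨a - b, Submodule.sub_mem _ ha hb, ?_⟩
    rw [map_sub, hpa, hpb]
    abel
  have hdle : Module.finrank ℝ (BI C (up w y) I01) ≤ d := h.maxd _ hpes
  have hrn := LinearMap.finrank_range_add_finrank_ker (pr.domRestrict (BI C (up w y) I01))
  rw [LinearMap.range_domRestrict] at hrn
  have hdge : d ≤ Module.finrank ℝ (Submodule.map pr (BI C (up w y) I01)) := by
    rw [← hw.wl.dim]
    exact Submodule.finrank_mono K2
  have hker : Module.finrank ℝ (LinearMap.ker (pr.domRestrict (BI C (up w y) I01))) = 0 := by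
    omega
  have hdeq : Module.finrank ℝ (BI C (up w y) I01) = d := by omega
  have hker' := Submodule.finrank_eq_zero.1 hker
  have hinj : ∀ u ∈ BI C (up w y) I01, pr u = 0 → u = 0 := by
    intro u hu hu0
    have h1 : (⟨u, hu⟩ : BI C (up w y) I01) ∈
        LinearMap.ker (pr.domRestrict (BI C (up w y) I01)) := by
      rw [LinearMap.mem_ker]
      exact hu0
    rw [hker', Submodule.mem_bot] at h1
    exact congrArg Subtype.val h1
  have hinj2 : ∀ u ∈ BI C (up w y) I01, ∀ v ∈ BI C (up w y) I01, pr u = pr v → u = v := by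
    intro u hu v hv huv
    have h1 := hinj (u - v) (Submodule.sub_mem _ hu hv) (by rw [map_sub, huv, sub_self])
    exact sub_eq_zero.1 h1
  -- order isomorphism
  have K3 : ∀ u ∈ BI C (up w y) I01, pr u ∈ closure C → u ∈ closure C := by
    intro u hu huc
    obtain ⟨u', hu', hu'c, hu'p⟩ := K1 (pr u) (hpr.mem u) huc
    rw [hinj2 u hu u' hu' hu'p.symm]
    exact hu'c
  have hWI : WI C Γ I01 d (up w y) := by
    refine ⟨hpes, hdeq, ?_, ?_⟩
    · intro i hi
      have hi' : i = 0 ∨ i = 1 := by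
        fin_cases i
        · left; rfl
        · right; rfl
        · exact absurd hi (by decide)
      rcases hi' with rfl | rfl
      · rw [up0]; exact hys
      · rw [up1]; exact hw1s
    · intro u hu huc
      rw [hcomp, fS_single, up2] at huc
      refine K3 u hu ?_
      have h1 := hpr.pos _ huc
      rwa [map_add, hpr2, add_zero] at h1
  refine ⟨hWI, hw.cod, ?_, ?_⟩
  · rw [up1]; exact hw.mem
  · intro z hz
    rw [up2]
    have hz0 : 0 < φ z := ((hLFM n C Γ d h (up w y) hWI).2 z hz).2.2.2.2.2.2 φ hφu |>.1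
    have hprz : 0 < φ (pr z) := by rw [hφpr]; exact hz0
    have hLf : Lf C w (pr z) := by
      refine ⟨hpr.mem z, hpr.pos z hz.cl, ?_, ?_⟩
      · intro hU
        refine hz.non ⟨hz.mem, hz.cl, fun v hv => ?_⟩
        obtain ⟨M, hM, hM1⟩ := hU.2.2 (pr v) (hpr.mem v)
        refine ⟨M, hM, K3 _ (Submodule.sub_mem _ (Submodule.smul_mem _ _ hz.mem) hv) ?_⟩
        rw [map_sub, map_smul]
        exact hM1
      · intro c hc
        rw [hc, map_smul, hφ1, smul_zero] at hprz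
        exact lt_irrefl _ hprz
    obtain ⟨hn1, hn2⟩ := hnorm (pr z) hLf hprz
    obtain ⟨p', hp'⟩ := hw.prj _ hn1
    obtain ⟨ha1, -, ha3, ha4⟩ := hANS' pr hpr _ p' hn1 hn2 hp'
    have hzz : z = φ (pr z) • p' y := by
      refine hinj2 z hz.mem _ (Submodule.smul_mem _ _ ha4) ?_
      rw [map_smul, ha3, smul_smul, mul_inv_cancel₀ hprz.ne', one_smul]
    have hpz : p' z = z := by
      have h1 : p' z = φ (pr z) • p' (p' y) := by
        conv_lhs => rw [hzz]
        rw [map_smul]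
      rw [h1, hp'.idm]
      exact hzz.symm
    exact ⟨p', hp'.idm, hp'.pos, hp'.ker, hpz, hp'.fv⟩

theorem anm (hWIP : WipStmt) (hWIF : WifStmt) (_hWII : WiiStmt) (_hPHE : PheStmt)
    (hPHU : PhuStmt) (hLFI : LfiStmt) (hLFM : LfmStmt) (hLFD : LfdStmt) (hANI : AniStmt)
    (_hANF : AnfStmt) (hANY : AnyStmt) (hANS : AnsStmt) : AnmStmt := by
  intro n C Γ d q h w N hw φ hφ x hx p hp y hpy hyc hyu hy
  have hP : PCone C := h.toPCone
  have hx0 : 0 < φ x := ((hLFM n C Γ d h w hw.wl).2 x hx).2.2.2.2.2.2 φ hφ |>.1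
  have hx1 : Lf C w ((φ x)⁻¹ • x) :=
    ((hLFI n C Γ d h w hw.wl x).2.2 (φ x)⁻¹ (inv_pos.2 hx0)).2 hx
  have hφx1 : φ ((φ x)⁻¹ • x) = 1 := by
    rw [map_smul, smul_eq_mul, inv_mul_cancel₀ hx0.ne']
  have hp1 : PJ C N ((φ x)⁻¹ • x) (w 2) p := by
    refine ⟨hp.idm, hp.pos, hp.ker, ?_, hp.fv⟩
    rw [map_smul, hp.fx]
  have hpy1 : p ((φ y)⁻¹ • y) = (φ y)⁻¹ • y := by rw [map_smul, hpy]
  have hyc1 : (φ y)⁻¹ • y ∈ closure C := hP.cl_smul hyc (inv_pos.2 hy).le
  have hφy1 : φ ((φ y)⁻¹ • y) = 1 := by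
    rw [map_smul, smul_eq_mul, inv_mul_cancel₀ hy.ne']
  have hyu1 : ¬ Unt C (LinearMap.range p) ((φ y)⁻¹ • y) := by
    intro hU
    refine hyu ⟨⟨y, hpy⟩, hyc, fun v hv => ?_⟩
    obtain ⟨M, hM, hM1⟩ := hU.2.2 v hv
    refine ⟨M * (φ y)⁻¹, mul_pos hM (inv_pos.2 hy), ?_⟩
    rw [mul_smul]
    exact hM1
  obtain ⟨hAN1, hpr1⟩ := core hWIP hWIF hPHU hLFI hLFM hLFD hANY hANS h hw hφ hx1 hφx1 hp1 hpy1
    hyc1 hyu1 hφy1
  refine ⟨?_, ?_⟩
  · have h1 := (hANI n C Γ d q h (up w ((φ y)⁻¹ • y)) N hAN1).1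
      (Function.update (fun _ => 1) 0 (φ y)) (by
        intro i
        by_cases hi : i = 0
        · subst hi
          rw [Function.update_self]
          exact hy
        · rw [Function.update_of_ne hi]
          exact one_pos)
    have h2 : (fun i => (Function.update (fun _ => (1 : ℝ)) 0 (φ y) : Fin 3 → ℝ) i •
        up w ((φ y)⁻¹ • y) i) = up w y := by
      funext i
      by_cases hi : i = 0
      · subst hi
        rw [Function.update_self, up0, up0, smul_smul, mul_inv_cancel₀ hy.ne', one_smul]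
      · have h3 : up w ((φ y)⁻¹ • y) i = w i := Function.update_of_ne hi _ w
        have h4 : up w y i = w i := Function.update_of_ne hi y w
        rw [Function.update_of_ne hi, h3, h4, one_smul]
    rw [h2] at h1
    exact h1
  · intro pr hpr
    have h1 := hpr1 pr hpr
    rw [map_smul] at h1
    have h2 : pr y = φ y • ((φ y)⁻¹ • pr y) := by
      rw [smul_smul, mul_inv_cancel₀ hy.ne', one_smul]
    rw [h2, h1, smul_smul]

end Pool.Agent.KT3.H27
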